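import Mathlib
import Pool.Agent.MP_e9025c_co.Defs
import Pool.Agent.MP_e9025c_co.Main

set_option autoImplicit false

open Pool.Agent.MP_e9025c_co

/-- Over the alphabet `{0,1}`, a nontrivial universal word with wild cards has well-defined
diamondicity iff it is pseudocyclic iff it is cyclic. -/
theorem Pool.Agent.Results.MP_e9025c_co.BinaryCyclicity.result :
    ∀ (n : ℕ), 1 ≤ n → ∀ w : List (Option (Fin 2)), IsUniversal n w → ¬ IsTrivial n w →
      (WellDefinedDiamondicity n w ↔ Pseudocyclic n w) ∧ (Pseudocyclic n w ↔ Cyclic n w) :=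
  fun n hn w hU hT => main n hn w hU hT
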